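import Pool.Agent.H23.DF.TargetsL
import Pool.Agent.H23.DF.TargetsG

/-!
# Friable conductors: row QF (the mean square of a wider class)
-/

set_option autoImplicit false

open NumberField NumberField.InfinitePlace
open scoped nonZeroDivisors

namespace Pool.Agent.H39.DF.QF

open Pool.Agent.H25.HK Pool.Agent.H23.LB Pool.Agent.H23.LC
open Pool.Agent.H23.DM (lg5 h5 Fq Mz cm SQ MP OQ de SpE SpG FP PhZ PY LoC Lab QB Clq)
open Pool.Agent.H23.DF
open Pool.Agent.H27.TM (Cls)
open Pool.Agent.H29.TC (LC cq MC)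
open Pool.Agent.H29.DW (dg Rl rv Pos)
open Pool.Agent.H31.SW (PP DD dK Pf)
open Pool.Agent.H31.SX (ND LK)

private lemma one_le_dK (K : Type) [Field K] [NumberField K] : 1 ≤ dK K := by
  unfold Pool.Agent.H31.SW.dK
  have h := Int.one_le_abs (discr_ne_zero K)
  exact_mod_cast h

private lemma one_le_Nf {K : Type} [Field K] [NumberField K] {I : Ideal (𝓞 K)} (hI : I ≠ ⊥) :
    1 ≤ Nf K I := by
  unfold Nf
  have h : Ideal.absNorm I ≠ 0 := by
    rw [Ne, Ideal.absNorm_eq_zero_iff]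
    exact hI
  exact_mod_cast Nat.one_le_iff_ne_zero.mpr h

private lemma DD_nonneg {K : Type} [Field K] [NumberField K] (L : FI K)
    (y : InfinitePlace K → ℝ) : 0 ≤ DD L y := by
  unfold Pool.Agent.H31.SW.DD
  have h : (0 : ℝ) ≤ (FractionalIdeal.absNorm L : ℝ) := by
    exact_mod_cast FractionalIdeal.absNorm_nonneg L
  positivity

private lemma card_places (K : Type) [Field K] [NumberField K] (n : ℕ)
    (hn : Module.finrank ℚ K = n) : Fintype.card (InfinitePlace K) ≤ n := by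
  classical
  rw [← hn, ← NumberField.InfinitePlace.sum_mult_eq]
  calc Fintype.card (InfinitePlace K) = ∑ _v : InfinitePlace K, 1 := by simp
    _ ≤ ∑ v : InfinitePlace K, v.mult := Finset.sum_le_sum fun v _ => by
        have := v.mult_pos
        omega

private lemma one_le_PP {K : Type} [Field K] [NumberField K] (τ : InfinitePlace K → ℝ)
    (h : ∀ v, 1 ≤ τ v) : 1 ≤ PP τ := by
  classical
  unfold Pool.Agent.H31.SW.PP
  calc (1 : ℝ) = ∏ _v : InfinitePlace K, (1 : ℝ) := by simp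
    _ ≤ ∏ v, τ v ^ v.mult := Finset.prod_le_prod (fun v _ => by norm_num)
        fun v _ => one_le_pow₀ (h v)

private lemma PP_scale {K : Type} [Field K] [NumberField K] (n : ℕ)
    (hn : Module.finrank ℚ K = n) (σ τ : InfinitePlace K → ℝ) (a : ℝ)
    (hσ : ∀ v, 0 ≤ σ v) (h : ∀ v, σ v ≤ a * τ v) : PP σ ≤ a ^ n * PP τ := by
  classical
  unfold Pool.Agent.H31.SW.PP
  calc ∏ v, σ v ^ v.mult ≤ ∏ v : InfinitePlace K, (a ^ v.mult * τ v ^ v.mult) := by
        apply Finset.prod_le_prod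
        · intro v _
          exact pow_nonneg (hσ v) _
        · intro v _
          rw [← mul_pow]
          exact pow_le_pow_left₀ (hσ v) (h v) _
    _ = a ^ n * ∏ v, τ v ^ v.mult := by
        rw [Finset.prod_mul_distrib, Finset.prod_pow_eq_pow_sum,
          NumberField.InfinitePlace.sum_mult_eq, hn]

-- the dyadic exponent
private noncomputable def ex (x : ℝ) : ℕ := Nat.log 2 ⌊x⌋₊

private lemma ex_spec (x : ℝ) (hx : 1 ≤ x) : (2 : ℝ) ^ ex x ≤ x ∧ x ≤ 2 * 2 ^ ex x := by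
  unfold ex
  have h1 : 1 ≤ ⌊x⌋₊ := Nat.one_le_floor_iff x |>.mpr hx
  constructor
  · have h2 : 2 ^ Nat.log 2 ⌊x⌋₊ ≤ ⌊x⌋₊ := Nat.pow_log_le_self 2 (by omega)
    have h3 : ((2 ^ Nat.log 2 ⌊x⌋₊ : ℕ) : ℝ) ≤ (⌊x⌋₊ : ℝ) := by exact_mod_cast h2
    push_cast at h3
    exact h3.trans (Nat.floor_le (by linarith))
  · have h2 : ⌊x⌋₊ < 2 ^ (Nat.log 2 ⌊x⌋₊).succ := Nat.lt_pow_succ_log_self (by norm_num) _
    have h3 : ⌊x⌋₊ + 1 ≤ 2 ^ (Nat.log 2 ⌊x⌋₊ + 1) := h2
    have h4 : ((⌊x⌋₊ + 1 : ℕ) : ℝ) ≤ ((2 ^ (Nat.log 2 ⌊x⌋₊ + 1) : ℕ) : ℝ) := by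
      exact_mod_cast h3
    push_cast at h4
    have h5 := Nat.lt_floor_add_one x
    rw [pow_succ] at h4
    linarith

-- the number of the values of the exponents
private lemma card_values (S : Finset ℕ) (Λ t : ℝ) (hΛ : 1 ≤ Λ)
    (h : ∀ a ∈ S, (2 : ℝ) ^ a ≤ Λ * t ∧ t ≤ Λ * (2 * 2 ^ a)) :
    (S.card : ℝ) ≤ 2 * Λ ^ 2 := by
  have hΛ2 : 1 ≤ Λ ^ 2 := one_le_pow₀ hΛ
  rcases S.eq_empty_or_nonempty with rfl | hS
  · simp
    positivity
  have hmin := S.min'_mem hS
  have hmax := S.max'_mem hS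
  set lo := S.min' hS
  set hi := S.max' hS
  have hlh : lo ≤ hi := S.min'_le _ hmax
  have hsub : S ⊆ Finset.Icc lo hi := by
    intro a ha
    rw [Finset.mem_Icc]
    exact ⟨S.min'_le _ ha, S.le_max' _ ha⟩
  have hc : S.card ≤ hi - lo + 1 := by
    have := Finset.card_le_card hsub
    rw [Nat.card_Icc] at this
    omega
  have h1 : (2 : ℝ) ^ hi ≤ Λ ^ 2 * (2 * 2 ^ lo) := by
    calc (2 : ℝ) ^ hi ≤ Λ * t := (h hi hmax).1
      _ ≤ Λ * (Λ * (2 * 2 ^ lo)) := mul_le_mul_of_nonneg_left (h lo hmin).2 (by linarith)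
      _ = Λ ^ 2 * (2 * 2 ^ lo) := by ring
  have h2 : (2 : ℝ) ^ (hi - lo) ≤ 2 * Λ ^ 2 := by
    have e : (2 : ℝ) ^ hi = 2 ^ (hi - lo) * 2 ^ lo := by
      rw [← pow_add]
      congr 1
      omega
    rw [e] at h1
    have h3 : (0 : ℝ) < 2 ^ lo := by positivity
    have h4 : (2 : ℝ) ^ (hi - lo) * 2 ^ lo ≤ (2 * Λ ^ 2) * 2 ^ lo := by
      calc (2 : ℝ) ^ (hi - lo) * 2 ^ lo ≤ Λ ^ 2 * (2 * 2 ^ lo) := h1
        _ = (2 * Λ ^ 2) * 2 ^ lo := by ring
    exact le_of_mul_le_mul_right h4 h3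
  have h5 : hi - lo + 1 ≤ 2 ^ (hi - lo) := Nat.lt_two_pow_self
  calc (S.card : ℝ) ≤ ((hi - lo + 1 : ℕ) : ℝ) := by exact_mod_cast hc
    _ ≤ ((2 ^ (hi - lo) : ℕ) : ℝ) := by exact_mod_cast h5
    _ = (2 : ℝ) ^ (hi - lo) := by push_cast; rfl
    _ ≤ 2 * Λ ^ 2 := h2

theorem pf_QF (hQ2 : F_Q2) (hFN : F_FN) : F_QF := by
  classical
  intro n hn
  refine ⟨((4 + 6 * n : ℕ) : ℝ), Nat.cast_nonneg _, ?_⟩
  intro ε p hε hε1 hp
  obtain ⟨C, hC, hQ2⟩ := hQ2 n ε p hn hε hp
  refine ⟨C * 2 ^ (3 * n), by positivity, ?_⟩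
  intro K _ _ hK l s k κ Y M x₀ y ω ρ H τ ι J bl η c D Λ hSK hFP hω hρ hKq hLC hΛ hHτ hJ hLab
    hS hD
  have hτ : ∀ v, 1 ≤ τ v := fun v => (hHτ v).2
  have hsk : s * k ≠ ⊥ := hFP.lk.k_ne
  have hk : k ≠ ⊥ := by
    rintro rfl
    exact hsk (by simp)
  have hκ0 : κ ≠ ⊥ := by
    rintro rfl
    exact hsk (le_bot_iff.mp hKq.le)
  have hrad : k.radical ≠ ⊥ := by
    intro h
    exact hk (le_bot_iff.mp (Ideal.le_radical.trans_eq h))
  obtain ⟨θ, γ, hγ⟩ := hFN K l s k (κ ⊔ k) Y hSK le_sup_right hKq.six ι J η hLC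
  let a : ι → (InfinitePlace K → ℕ) := fun j v => ex (1 + ‖c j v‖)
  have ha : ∀ j v, (2 : ℝ) ^ a j v ≤ 1 + ‖c j v‖ ∧ 1 + ‖c j v‖ ≤ 2 * 2 ^ a j v := fun j v =>
    ex_spec _ (by have := norm_nonneg (c j v); linarith)
  have hdK := one_le_dK K
  have hr0 : 1 ≤ Nf K k.radical * Y :=
    one_le_mul_of_one_le_of_one_le (one_le_Nf hrad) hSK.one
  have hNk : 1 ≤ Nf K (s * k) := one_le_Nf hsk
  have hNκ : 1 ≤ Nf K κ := one_le_Nf hκ0
  have hNl : 1 ≤ Nf K l := one_le_Nf hFP.lk.l_ne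
  have hX0 : 0 ≤ DD M y / Nf K l := div_nonneg (DD_nonneg M y) (by linarith)
  have hPτ : 1 ≤ PP τ := one_le_PP τ hτ
  have hPH : 1 ≤ PP H := one_le_PP H fun v => (hHτ v).1
  have hPm : ∀ τ'' : InfinitePlace K → ℝ, 1 ≤ PP (fun v => max (τ'' v) (H v ^ 3)) := fun τ'' =>
    one_le_PP _ fun v => le_max_of_le_right (one_le_pow₀ (hHτ v).1)
  set X : ℝ := DD M y / Nf K l with hXdef
  set r0 : ℝ := Nf K k.radical * Y with hr0def
  have hT : 1 ≤ Nf K (s * k) * PP τ := one_le_mul_of_one_le_of_one_le hNk hPτ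
  set T : ℝ := Nf K (s * k) * PP τ with hTdef
  set Rn : ℝ := ((J.image bl).card : ℝ) with hRndef
  have hRn0 : 0 ≤ Rn := Nat.cast_nonneg _
  set GH : ℝ := Nf K κ * PP H with hGHdef
  have hGH1 : 1 ≤ GH := one_le_mul_of_one_le_of_one_le hNκ hPH
  have hQB0 : 0 ≤ QB (s * k) κ τ H Rn := by
    unfold QB
    rw [← hGHdef]
    have := hPm τ
    positivity
  set R : ℝ := (D * dK K * r0) ^ 4 * T ^ ε * QB (s * k) κ τ H Rn *
    ((1 + X) * (1 + X / T) ^ (3 / 2 : ℝ)) with hR
  have hR0 : 0 ≤ R := by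
    rw [hR]
    positivity
  have hcls : ∀ b ∈ J.image a, ∑ j ∈ J with a j = b,
      ‖SQ p (((l * k.radical : Ideal (𝓞 K)) : FI K) * M) y ω ρ (cq (s * k) (η j) M x₀)
        (c j)‖ ^ 2 ≤ C * (2 ^ (2 * n) * Λ ^ (4 * n) * R) := by
    intro b hb
    obtain ⟨j₀, hj₀, rfl⟩ := Finset.mem_image.mp hb
    set τ' : InfinitePlace K → ℝ := fun v => 2 ^ a j₀ v with hτ'
    have h1 := hQ2 K hK l s k κ Y θ M x₀ y ω ρ H τ' ι (J.filter fun j => a j = a j₀) bl η γ c D
      hSK hFP hω hρ hKq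
      ⟨hγ.nd, fun j hj => hγ.lc j (Finset.mem_filter.mp hj).1,
        fun j hj => hγ.fq j (Finset.mem_filter.mp hj).1,
        fun i hi j hj => hγ.eq i (Finset.mem_filter.mp hi).1 j (Finset.mem_filter.mp hj).1⟩
      (fun v => ⟨(hHτ v).1, one_le_pow₀ (by norm_num)⟩) ?_
      (fun i hi j hj => hLab i (Finset.mem_filter.mp hi).1 j (Finset.mem_filter.mp hj).1) ?_ hD
    · refine h1.trans ?_
      rw [← hXdef, ← hr0def]
      apply mul_le_mul_of_nonneg_left _ hC
      have hP' : 1 ≤ PP τ' := one_le_PP τ' fun v => one_le_pow₀ (by norm_num)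
      have hT' : 1 ≤ Nf K (s * k) * PP τ' := one_le_mul_of_one_le_of_one_le hNk hP'
      have hτΛ : ∀ v, τ' v ≤ Λ * τ v := fun v => (ha j₀ v).1.trans (hJ j₀ hj₀ v).2.2
      have hup : Nf K (s * k) * PP τ' ≤ Λ ^ n * T := by
        have h2 : PP τ' ≤ Λ ^ n * PP τ := PP_scale n hK τ' τ Λ (fun v => by positivity) hτΛ
        calc Nf K (s * k) * PP τ' ≤ Nf K (s * k) * (Λ ^ n * PP τ) :=
              mul_le_mul_of_nonneg_left h2 (by linarith)
          _ = Λ ^ n * T := by rw [hTdef]; ring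
      have hlow : T ≤ (2 * Λ) ^ n * (Nf K (s * k) * PP τ') := by
        have h2 : PP τ ≤ (2 * Λ) ^ n * PP τ' := by
          apply PP_scale n hK τ τ' (2 * Λ) (fun v => by linarith [hτ v])
          intro v
          calc τ v ≤ Λ * (1 + ‖c j₀ v‖) := (hJ j₀ hj₀ v).2.1
            _ ≤ Λ * (2 * 2 ^ a j₀ v) := mul_le_mul_of_nonneg_left (ha j₀ v).2 (by linarith)
            _ = 2 * Λ * τ' v := by rw [hτ']; ring
        calc T = Nf K (s * k) * PP τ := hTdef
          _ ≤ Nf K (s * k) * ((2 * Λ) ^ n * PP τ') := mul_le_mul_of_nonneg_left h2 (by linarith)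
          _ = (2 * Λ) ^ n * (Nf K (s * k) * PP τ') := by ring
      set T' : ℝ := Nf K (s * k) * PP τ' with hT'def
      have hΛn : 1 ≤ Λ ^ n := one_le_pow₀ hΛ
      have e1 : T' ^ ε ≤ Λ ^ n * T ^ ε := by
        calc T' ^ ε ≤ (Λ ^ n * T) ^ ε := Real.rpow_le_rpow (by linarith) hup hε.le
          _ = (Λ ^ n) ^ ε * T ^ ε := Real.mul_rpow (by linarith) (by linarith)
          _ ≤ (Λ ^ n) ^ (1 : ℝ) * T ^ ε := by
              apply mul_le_mul_of_nonneg_right _ (by positivity)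
              exact Real.rpow_le_rpow_of_exponent_le hΛn hε1
          _ = Λ ^ n * T ^ ε := by rw [Real.rpow_one]
      have e2 : 1 + X / T' ≤ (2 * Λ) ^ n * (1 + X / T) := by
        have h2Λn : 1 ≤ (2 * Λ) ^ n := one_le_pow₀ (by linarith)
        have f2 : X / T' ≤ (2 * Λ) ^ n * (X / T) := by
          rw [mul_div_assoc', div_le_div_iff₀ (by linarith) (by linarith)]
          calc X * T ≤ X * ((2 * Λ) ^ n * T') := mul_le_mul_of_nonneg_left hlow hX0
            _ = (2 * Λ) ^ n * X * T' := by ring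
        rw [mul_add, mul_one]
        exact add_le_add h2Λn f2
      have e3 : (1 + X / T') ^ (3 / 2 : ℝ) ≤
          2 ^ (2 * n) * Λ ^ (2 * n) * (1 + X / T) ^ (3 / 2 : ℝ) := by
        have h2Λn : 1 ≤ (2 * Λ) ^ n := one_le_pow₀ (by linarith)
        have g0 : 0 ≤ X / T := by positivity
        have g1 : 0 ≤ X / T' := by positivity
        calc (1 + X / T') ^ (3 / 2 : ℝ) ≤ ((2 * Λ) ^ n * (1 + X / T)) ^ (3 / 2 : ℝ) :=
              Real.rpow_le_rpow (by linarith) e2 (by norm_num)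
          _ = ((2 * Λ) ^ n) ^ (3 / 2 : ℝ) * (1 + X / T) ^ (3 / 2 : ℝ) :=
              Real.mul_rpow (by linarith) (by linarith)
          _ ≤ ((2 * Λ) ^ n) ^ (2 : ℝ) * (1 + X / T) ^ (3 / 2 : ℝ) := by
              apply mul_le_mul_of_nonneg_right _ (by positivity)
              exact Real.rpow_le_rpow_of_exponent_le h2Λn (by norm_num)
          _ = 2 ^ (2 * n) * Λ ^ (2 * n) * (1 + X / T) ^ (3 / 2 : ℝ) := by
              congr 1
              rw [show (2 : ℝ) = ((2 : ℕ) : ℝ) by norm_num, Real.rpow_natCast, mul_pow,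
                mul_pow, ← pow_mul, ← pow_mul, Nat.mul_comm 2 n]
      have hR' : (((J.filter fun j => a j = a j₀).image bl).card : ℝ) ≤ Rn := by
        rw [hRndef]
        exact_mod_cast Finset.card_le_card
          (Finset.image_subset_image (Finset.filter_subset _ _))
      set R' : ℝ := (((J.filter fun j => a j = a j₀).image bl).card : ℝ) with hR'def
      have hR'0 : 0 ≤ R' := Nat.cast_nonneg _
      have e4 : QB (s * k) κ τ' H R' ≤ Λ ^ n * QB (s * k) κ τ H Rn := by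
        have h2 : PP (fun v => max (τ' v) (H v ^ 3)) ≤
            Λ ^ n * PP (fun v => max (τ v) (H v ^ 3)) := by
          apply PP_scale n hK _ _ Λ
          · intro v
            exact le_max_of_le_right (by have := (hHτ v).1; positivity)
          · intro v
            apply max_le
            · exact (hτΛ v).trans (mul_le_mul_of_nonneg_left (le_max_left _ _) (by linarith))
            · have h3 : 0 ≤ H v ^ 3 := by have := (hHτ v).1; positivity
              calc H v ^ 3 ≤ Λ * H v ^ 3 := le_mul_of_one_le_left h3 hΛ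
                _ ≤ Λ * max (τ v) (H v ^ 3) :=
                    mul_le_mul_of_nonneg_left (le_max_right _ _) (by linarith)
        have h4 := hPm τ'
        unfold QB
        rw [← hGHdef]
        have g1 : R' * GH ≤ Λ ^ n * (Rn * GH) := by
          calc R' * GH ≤ Rn * GH := mul_le_mul_of_nonneg_right hR' (by linarith)
            _ ≤ Λ ^ n * (Rn * GH) := le_mul_of_one_le_left (by positivity) hΛn
        have g2 : R' ^ (1 / 2 : ℝ) * (Nf K (s * k) * PP (fun v => max (τ' v) (H v ^ 3)) / GH ^ 2) ≤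
            Λ ^ n * (Rn ^ (1 / 2 : ℝ) *
              (Nf K (s * k) * PP (fun v => max (τ v) (H v ^ 3)) / GH ^ 2)) := by
          calc R' ^ (1 / 2 : ℝ) *
              (Nf K (s * k) * PP (fun v => max (τ' v) (H v ^ 3)) / GH ^ 2) ≤
              Rn ^ (1 / 2 : ℝ) *
              (Nf K (s * k) * (Λ ^ n * PP (fun v => max (τ v) (H v ^ 3))) / GH ^ 2) := by
                apply mul_le_mul (Real.rpow_le_rpow hR'0 hR' (by norm_num)) _
                  (by positivity) (by positivity)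
                apply div_le_div_of_nonneg_right _ (by positivity)
                exact mul_le_mul_of_nonneg_left h2 (by linarith)
            _ = _ := by ring
        rw [mul_add]
        exact add_le_add g1 g2
      have e5 : D * dK K ^ 2 * r0 ^ 4 ≤ (D * dK K * r0) ^ 4 := by
        calc D * dK K ^ 2 * r0 ^ 4 ≤ D ^ 4 * dK K ^ 4 * r0 ^ 4 := by
              apply mul_le_mul_of_nonneg_right _ (by positivity)
              apply mul_le_mul _ _ (by positivity) (by positivity)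
              · exact le_self_pow₀ hD (by norm_num)
              · exact pow_le_pow_right₀ hdK (by norm_num)
          _ = (D * dK K * r0) ^ 4 := by ring
      have hQB'0 : 0 ≤ QB (s * k) κ τ' H R' := by
        unfold QB
        rw [← hGHdef]
        have := hPm τ'
        positivity
      calc D * dK K ^ 2 * r0 ^ 4 * T' ^ ε * QB (s * k) κ τ' H R' *
          ((1 + X) * (1 + X / T') ^ (3 / 2 : ℝ)) ≤
          (D * dK K * r0) ^ 4 * (Λ ^ n * T ^ ε) * (Λ ^ n * QB (s * k) κ τ H Rn) *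
            ((1 + X) * (2 ^ (2 * n) * Λ ^ (2 * n) * (1 + X / T) ^ (3 / 2 : ℝ))) := by
            apply mul_le_mul
            · apply mul_le_mul _ e4 hQB'0 (by positivity)
              exact mul_le_mul e5 e1 (by positivity) (by positivity)
            · exact mul_le_mul_of_nonneg_left e3 (by positivity)
            · positivity
            · positivity
        _ = 2 ^ (2 * n) * Λ ^ (4 * n) * R := by
            rw [hR, show 4 * n = n + n + 2 * n by ring, pow_add, pow_add]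
            ring
    · intro j hj
      rw [Finset.mem_filter] at hj
      have hjk : ∀ v, a j v = a j₀ v := fun v => congrFun hj.2 v
      refine ⟨fun v => one_le_pow₀ (by norm_num), fun v => ?_, fun v => ?_,
        fun v => (hJ j hj.1 v).1⟩
      · have := (ha j v).1
        rw [hjk v] at this
        exact this
      · have := (ha j v).2
        rw [hjk v] at this
        exact this
    · intro η₀ c₀
      refine le_trans ?_ (hS η₀ c₀)
      norm_cast
      apply Finset.card_le_card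
      intro j hj
      rw [Finset.mem_filter] at hj ⊢
      exact ⟨(Finset.mem_filter.mp hj.1).1, hj.2⟩
  have hcount : ((J.image a).card : ℝ) ≤ (2 * Λ ^ 2) ^ n := by
    let S : InfinitePlace K → Finset ℕ := fun v => J.image fun j => a j v
    have hsub : J.image a ⊆ Fintype.piFinset S := by
      intro b hb
      obtain ⟨j, hj, rfl⟩ := Finset.mem_image.mp hb
      rw [Fintype.mem_piFinset]
      intro v
      exact Finset.mem_image_of_mem (fun j => a j v) hj
    have h1 : ((J.image a).card : ℝ) ≤ ((Fintype.piFinset S).card : ℝ) := by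
      exact_mod_cast Finset.card_le_card hsub
    refine h1.trans ?_
    rw [Fintype.card_piFinset]
    push_cast
    have hb : 1 ≤ 2 * Λ ^ 2 := by
      have := one_le_pow₀ (n := 2) hΛ
      linarith
    calc ∏ v, ((S v).card : ℝ) ≤ ∏ _v : InfinitePlace K, (2 * Λ ^ 2) := by
          apply Finset.prod_le_prod
          · intro v _
            positivity
          · intro v _
            apply card_values (S v) Λ (τ v) hΛ
            intro b hb'
            obtain ⟨j, hj, rfl⟩ := Finset.mem_image.mp hb'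
            refine ⟨(ha j v).1.trans (hJ j hj v).2.2, ?_⟩
            exact (hJ j hj v).2.1.trans
              (mul_le_mul_of_nonneg_left (ha j v).2 (by linarith))
      _ = (2 * Λ ^ 2) ^ Fintype.card (InfinitePlace K) := by
          rw [Finset.prod_const, Finset.card_univ]
      _ ≤ (2 * Λ ^ 2) ^ n := pow_le_pow_right₀ hb (card_places K n hK)
  have hsum : ∑ j ∈ J, ‖SQ p (((l * k.radical : Ideal (𝓞 K)) : FI K) * M) y ω ρ
        (cq (s * k) (η j) M x₀) (c j)‖ ^ 2 =
      ∑ b ∈ J.image a, ∑ j ∈ J with a j = b,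
        ‖SQ p (((l * k.radical : Ideal (𝓞 K)) : FI K) * M) y ω ρ (cq (s * k) (η j) M x₀)
          (c j)‖ ^ 2 :=
    (Finset.sum_fiberwise_of_maps_to (fun j hj => Finset.mem_image_of_mem a hj) _).symm
  rw [hsum]
  calc ∑ b ∈ J.image a, ∑ j ∈ J with a j = b,
        ‖SQ p (((l * k.radical : Ideal (𝓞 K)) : FI K) * M) y ω ρ (cq (s * k) (η j) M x₀)
          (c j)‖ ^ 2 ≤
      ∑ _b ∈ J.image a, C * (2 ^ (2 * n) * Λ ^ (4 * n) * R) := Finset.sum_le_sum hcls
    _ = ((J.image a).card : ℝ) * (C * (2 ^ (2 * n) * Λ ^ (4 * n) * R)) := by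
        rw [Finset.sum_const, nsmul_eq_mul]
    _ ≤ (2 * Λ ^ 2) ^ n * (C * (2 ^ (2 * n) * Λ ^ (4 * n) * R)) :=
        mul_le_mul_of_nonneg_right hcount (by positivity)
    _ = C * 2 ^ (3 * n) * (Λ ^ (6 * n) * R) := by
        rw [mul_pow, ← pow_mul, show 3 * n = n + 2 * n by ring,
          show 6 * n = 2 * n + 4 * n by ring, pow_add, pow_add]
        ring
    _ ≤ C * 2 ^ (3 * n) * ((D * dK K * r0 * Λ) ^ ((4 + 6 * n : ℕ) : ℝ) * T ^ ε *
          QB (s * k) κ τ H Rn * ((1 + X) * (1 + X / T) ^ (3 / 2 : ℝ))) := by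
        apply mul_le_mul_of_nonneg_left _ (by positivity)
        rw [Real.rpow_natCast, hR]
        have hDd : 1 ≤ D * dK K * r0 :=
          one_le_mul_of_one_le_of_one_le (one_le_mul_of_one_le_of_one_le hD hdK) hr0
        have h1 : Λ ^ (6 * n) * (D * dK K * r0) ^ 4 ≤
            (D * dK K * r0 * Λ) ^ (4 + 6 * n) := by
          have e : (D * dK K * r0 * Λ) ^ (4 + 6 * n) =
              ((D * dK K * r0) ^ 4 * (D * dK K * r0) ^ (6 * n)) *
                (Λ ^ 4 * Λ ^ (6 * n)) := by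
            rw [mul_pow, pow_add, pow_add]
          rw [e]
          have g1 : 1 ≤ (D * dK K * r0) ^ (6 * n) := one_le_pow₀ hDd
          have g2 : 1 ≤ Λ ^ 4 := one_le_pow₀ hΛ
          have g3 : 1 ≤ (D * dK K * r0) ^ (6 * n) * Λ ^ 4 :=
            one_le_mul_of_one_le_of_one_le g1 g2
          calc Λ ^ (6 * n) * (D * dK K * r0) ^ 4 =
              (Λ ^ (6 * n) * (D * dK K * r0) ^ 4) * 1 := by ring
            _ ≤ (Λ ^ (6 * n) * (D * dK K * r0) ^ 4) *
                ((D * dK K * r0) ^ (6 * n) * Λ ^ 4) :=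
                mul_le_mul_of_nonneg_left g3 (by positivity)
            _ = _ := by ring
        calc Λ ^ (6 * n) * ((D * dK K * r0) ^ 4 * T ^ ε * QB (s * k) κ τ H Rn *
            ((1 + X) * (1 + X / T) ^ (3 / 2 : ℝ))) =
            (Λ ^ (6 * n) * (D * dK K * r0) ^ 4) * (T ^ ε * QB (s * k) κ τ H Rn *
              ((1 + X) * (1 + X / T) ^ (3 / 2 : ℝ))) := by ring
          _ ≤ (D * dK K * r0 * Λ) ^ (4 + 6 * n) * (T ^ ε * QB (s * k) κ τ H Rn *
              ((1 + X) * (1 + X / T) ^ (3 / 2 : ℝ))) :=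
              mul_le_mul_of_nonneg_right h1 (by positivity)
          _ = _ := by ring

end Pool.Agent.H39.DF.QF
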