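import Pool.Agent.H29.DF.Targets

/-!
# The number of the vectors of all lines (XHC)
-/

set_option autoImplicit false

open MeasureTheory Set Filter NumberField
open scoped Real nonZeroDivisors Matrix MatrixGroups
open Pool.Agent.H31.CN Pool.Agent.H89.FM Pool.Agent.H61.FM Pool.Agent.H89.FC Pool.Agent.H95.FC
open Pool.Agent.H89.DF Pool.Agent.H95.DR Pool.Agent.H29.DF

namespace Pool.Agent.H39.DF

/-- a vector with squarefree value on the line of a unit vector is a unit vector -/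
theorem xhc_unit (hTRN : T_TRN) {f : ℕ} {Q : QF} {V v : ℤ × ℤ} (hV : Uv f Q V)
    (hd : (f : ℤ) ∣ det V v) (hs : Squarefree (val Q v).natAbs) : Uv f Q v := by
  obtain ⟨t, u, hv⟩ := hTRN.2.1 f Q V v hV hd
  have e1 : v.1 = t * V.1 + f * u.1 := by rw [hv]; simp
  have e2 : v.2 = t * V.2 + f * u.2 := by rw [hv]; simp
  -- `t` is prime to `f`
  have hg : Int.gcd t (f : ℤ) = 1 := by
    have h1 : ((Int.gcd t (f : ℤ) : ℕ) : ℤ) ∣ t := Int.gcd_dvd_left ..
    have h2 : ((Int.gcd t (f : ℤ) : ℕ) : ℤ) ∣ (f : ℤ) := Int.gcd_dvd_right ..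
    obtain ⟨a, ha⟩ := h1
    obtain ⟨c, hc⟩ := h2
    generalize Int.gcd t (f : ℤ) = g at *
    have h3 : ((g * g : ℕ) : ℤ) ∣ val Q v := by
      refine ⟨val Q (a * V.1 + c * u.1, a * V.2 + c * u.2), ?_⟩
      simp only [val]
      rw [e1, e2, ha, hc]
      push_cast
      ring
    have h4 : g * g ∣ (val Q v).natAbs := by
      have := Int.natAbs_dvd_natAbs.mpr h3
      rwa [Int.natAbs_natCast] at this
    exact Nat.isUnit_iff.mp (hs g h4)
  have ht : IsCoprime t (f : ℤ) := Int.isCoprime_iff_gcd_eq_one.mpr hg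
  have h5 : IsCoprime (t ^ 2 * val Q V) (f : ℤ) := (ht.pow_left).mul_left hV
  have h6 : val Q v = t ^ 2 * val Q V + (f : ℤ) *
      (2 * Q.1 * t * V.1 * u.1 + Q.1 * f * u.1 ^ 2 + Q.2.1 * t * (V.1 * u.2 + u.1 * V.2) +
        Q.2.1 * f * u.1 * u.2 + 2 * Q.2.2 * t * V.2 * u.2 + Q.2.2 * f * u.2 ^ 2) := by
    simp only [val]
    rw [e1, e2]
    ring
  unfold Uv
  rw [h6]
  exact IsCoprime.add_mul_left_left h5 _

theorem pf_XHC (hWND : T_WND) (hTRN : T_TRN) (hEMB : T_EMB) : T_XHC := by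
  classical
  intro K _ _ D f σ σ' hRQ hf R N
  -- the ideals
  let S : Finset (Ideal (𝓞 K))⁰ := (Sq N).biUnion (Nn K)
  let Sc : ClassGroup (𝓞 K) → Finset (Ideal (𝓞 K))⁰ := fun c =>
    S.filter (fun J => (ClassGroup.mk0 J)⁻¹ = c)
  -- the vectors
  let A : ClassGroup (𝓞 K) → Set (ℤ × ℤ) := fun c =>
    {v | Wd σ σ' (R.α c) (R.β c) R.η 0 v ∧ (val (R.Q c) v).natAbs ∈ Sq N}
  let g : ClassGroup (𝓞 K) → (Ideal (𝓞 K))⁰ → Finset (ℤ × ℤ) := fun c J =>
    if h : {v' : ℤ × ℤ | Wd σ σ' (R.α c) (R.β c) R.η 0 v' ∧ R.b c v' = J}.Finite then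
      h.toFinset else ∅
  have hfin : ∀ c, ∀ J ∈ Sc c,
      {v' : ℤ × ℤ | Wd σ σ' (R.α c) (R.β c) R.η 0 v' ∧ R.b c v' = J}.Finite ∧
      {v' : ℤ × ℤ | Wd σ σ' (R.α c) (R.β c) R.η 0 v' ∧ R.b c v' = J}.ncard = R.n := by
    intro c J hJ
    have hc : (ClassGroup.mk0 J)⁻¹ = c := (Finset.mem_filter.mp hJ).2
    have hc' : ClassGroup.mk0 J = (ClassGroup.mk0 (R.I c))⁻¹ := by
      rw [R.cl c, ← hc, inv_inv]
    obtain ⟨v, hv, hb⟩ := (R.vb c).sur J hc'
    have h := hWND K D f σ σ' hRQ R.η R.un (R.I c) (R.α c) (R.β c) (R.Q c) (R.b c) (R.ob c)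
      (R.vb c) v 0 hv
    rw [hb] at h
    exact h
  have hgc : ∀ c, ∀ J ∈ Sc c, (g c J).card = R.n := by
    intro c J hJ
    have h := hfin c J hJ
    simp only [g]
    rw [dif_pos h.1, ← Set.ncard_eq_toFinset_card _ h.1]
    exact h.2
  have hAsub : ∀ c, A c ⊆ ↑((Sc c).biUnion (g c)) := by
    intro c v hv
    have hv0 : v ≠ 0 := hv.1.1
    have hJ : R.b c v ∈ Sc c := by
      refine Finset.mem_filter.mpr ⟨Finset.mem_biUnion.mpr ⟨(val (R.Q c) v).natAbs, hv.2, ?_⟩, ?_⟩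
      · rw [mem_Nn]
        have h1 := (R.vb c).nrm v hv0
        have h2 : ((nm (R.b c v) : ℕ) : ℤ) = (((val (R.Q c) v).natAbs : ℕ) : ℤ) := by
          rw [h1, Int.natCast_natAbs]
        exact_mod_cast h2
      · rw [(R.vb c).cls v hv0, R.cl c, inv_inv]
    rw [Finset.mem_coe, Finset.mem_biUnion]
    refine ⟨R.b c v, hJ, ?_⟩
    simp only [g]
    rw [dif_pos (hfin c _ hJ).1, Set.Finite.mem_toFinset]
    exact ⟨hv.1, rfl⟩
  have hAfin : ∀ c, (A c).Finite := fun c => (Finset.finite_toSet _).subset (hAsub c)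
  have hAcard : ∀ c, (hAfin c).toFinset.card ≤ R.n * (Sc c).card := by
    intro c
    calc (hAfin c).toFinset.card ≤ ((Sc c).biUnion (g c)).card := by
          apply Finset.card_le_card
          intro v hv
          rw [Set.Finite.mem_toFinset] at hv
          exact Finset.mem_coe.mp (hAsub c hv)
      _ ≤ ∑ J ∈ Sc c, (g c J).card := Finset.card_biUnion_le
      _ = ∑ J ∈ Sc c, R.n := Finset.sum_congr rfl (hgc c)
      _ = R.n * (Sc c).card := by rw [Finset.sum_const, smul_eq_mul, mul_comm]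
  -- the lines of a class
  have hline : ∀ c, ∑ V ∈ R.T c, {v : ℤ × ℤ | Lx f N (R.Q c) V v ∧
      Wd σ σ' (R.α c) (R.β c) R.η 0 v}.ncard ≤ (hAfin c).toFinset.card := by
    intro c
    let Y : ℤ × ℤ → Finset (ℤ × ℤ) := fun V =>
      (hAfin c).toFinset.filter (fun v => (f : ℤ) ∣ det V v)
    have hY : ∀ V ∈ R.T c, {v : ℤ × ℤ | Lx f N (R.Q c) V v ∧
        Wd σ σ' (R.α c) (R.β c) R.η 0 v}.ncard ≤ (Y V).card := by
      intro V _
      rw [← Set.ncard_coe_finset (Y V)]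
      apply Set.ncard_le_ncard _ (Finset.finite_toSet _)
      intro v hv
      rw [Finset.mem_coe, Finset.mem_filter, Set.Finite.mem_toFinset]
      exact ⟨⟨hv.2, hv.1.sq⟩, hv.1.lin⟩
    have hdis : ((R.T c : Finset (ℤ × ℤ)) : Set (ℤ × ℤ)).PairwiseDisjoint Y := by
      intro V hV V' hV' hne
      rw [Function.onFun, Finset.disjoint_left]
      intro v hv hv'
      apply hne
      rw [Finset.mem_filter, Set.Finite.mem_toFinset] at hv hv'
      have hsq : Squarefree (val (R.Q c) v).natAbs := (Finset.mem_filter.mp hv.1.2).2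
      have hu : Uv f (R.Q c) v :=
        xhc_unit hTRN ((R.lt c).un V (Finset.mem_coe.mp hV)) hv.2 hsq
      have hd' : (f : ℤ) ∣ det v V' := by
        have h : det v V' = -det V' v := by simp only [det]; ring
        rw [h]
        exact (dvd_neg).mpr hv'.2
      exact (R.lt c).uni V (Finset.mem_coe.mp hV) V' (Finset.mem_coe.mp hV')
        (hTRN.1 f (R.Q c) V v V' hu hv.2 hd')
    calc ∑ V ∈ R.T c, {v : ℤ × ℤ | Lx f N (R.Q c) V v ∧
          Wd σ σ' (R.α c) (R.β c) R.η 0 v}.ncard ≤ ∑ V ∈ R.T c, (Y V).card :=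
          Finset.sum_le_sum hY
      _ = ((R.T c).biUnion Y).card := (Finset.card_biUnion hdis).symm
      _ ≤ (hAfin c).toFinset.card := by
          apply Finset.card_le_card
          intro v hv
          obtain ⟨V, _, h⟩ := Finset.mem_biUnion.mp hv
          exact (Finset.mem_filter.mp h).1
  -- the sum over the classes
  have hcl : ∑ c, (Sc c).card = S.card :=
    (Finset.card_eq_sum_card_fiberwise (f := fun J => (ClassGroup.mk0 J)⁻¹)
      (fun J _ => Finset.mem_coe.mpr (Finset.mem_univ _))).symm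
  have hS : S.card ≤ ∑ n ∈ Sq N, (Nn K n).card := Finset.card_biUnion_le
  calc ∑ j ∈ R.J, {v : ℤ × ℤ | Lx f N (R.Q j.1) j.2 v ∧
        Wd σ σ' (R.α j.1) (R.β j.1) R.η 0 v}.ncard
      = ∑ c, ∑ V ∈ R.T c, {v : ℤ × ℤ | Lx f N (R.Q c) V v ∧
        Wd σ σ' (R.α c) (R.β c) R.η 0 v}.ncard := by
        unfold DD.J
        rw [Finset.sum_sigma]
    _ ≤ ∑ c, R.n * (Sc c).card :=
        Finset.sum_le_sum (fun c _ => (hline c).trans (hAcard c))
    _ = R.n * S.card := by rw [← Finset.mul_sum, hcl]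
    _ ≤ R.n * ∑ n ∈ Sq N, (Nn K n).card := Nat.mul_le_mul_left _ hS

end Pool.Agent.H39.DF
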