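import Pool.Agent.H89.DF.TargetsB

/-!
# Board dfx_modules, row BBE: Bessel's inequality
-/

set_option autoImplicit false

open MeasureTheory Set Filter
open scoped Real Matrix MatrixGroups ComplexConjugate ENNReal

namespace Pool.Agent.H39.DF

open Pool.Agent.H31.CN Pool.Agent.H89.FM Pool.Agent.H89.FC Pool.Agent.H89.DF

/-- the Hilbert space of the families of square integrable functions -/
abbrev HS (T : Type) [Fintype T] (μ : Measure ℝ) : Type := PiLp 2 (fun _ : T => Lp ℂ 2 μ)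

/-- a family of functions as an element of the Hilbert space -/
noncomputable def mk {T : Type} [Fintype T] {μ : Measure ℝ} (f : T → ℝ → ℂ)
    (hf : ∀ j, MemLp (f j) 2 μ) : HS T μ :=
  WithLp.toLp 2 (fun j => (hf j).toLp (f j))

theorem inner_mk {T : Type} [Fintype T] {μ : Measure ℝ} (f g : T → ℝ → ℂ)
    (hf : ∀ j, MemLp (f j) 2 μ) (hg : ∀ j, MemLp (g j) 2 μ) :
    inner ℂ (mk f hf) (mk g hg) = ∑ j, ∫ τ, g j τ * conj (f j τ) ∂μ := by
  rw [PiLp.inner_apply]
  refine Finset.sum_congr rfl fun j _ => ?_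
  rw [L2.inner_def]
  refine integral_congr_ae ?_
  filter_upwards [(hf j).coeFn_toLp, (hg j).coeFn_toLp] with τ h1 h2
  have e1 : (mk f hf) j = (hf j).toLp (f j) := rfl
  have e2 : (mk g hg) j = (hg j).toLp (g j) := rfl
  rw [e1, e2, h1, h2]
  rfl

/-- Bessel's inequality for orthogonal vectors of the same length -/
theorem bessel {H ι : Type} [NormedAddCommGroup H] [InnerProductSpace ℂ H] [Fintype ι]
    (u : ι → H) (G : H) (M : ℝ) (hM : 0 < M) (h1 : ∀ i, inner ℂ (u i) (u i) = (M : ℂ))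
    (h2 : ∀ i i', i ≠ i' → inner ℂ (u i) (u i') = 0) :
    ∑ i, ‖inner ℂ (u i) G‖ ^ 2 ≤ M * ‖G‖ ^ 2 := by
  classical
  have hs : 0 < Real.sqrt M := Real.sqrt_pos.2 hM
  have hss : Real.sqrt M * Real.sqrt M = M := Real.mul_self_sqrt hM.le
  let v : ι → H := fun i => (((Real.sqrt M)⁻¹ : ℝ) : ℂ) • u i
  have hinner : ∀ i x, inner ℂ (v i) x = (((Real.sqrt M)⁻¹ : ℝ) : ℂ) * inner ℂ (u i) x := by
    intro i x
    show inner ℂ ((((Real.sqrt M)⁻¹ : ℝ) : ℂ) • u i) x = _
    rw [inner_smul_left, Complex.conj_ofReal]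
  have hinner' : ∀ i i', inner ℂ (v i) (v i') =
      (((Real.sqrt M)⁻¹ : ℝ) : ℂ) * ((((Real.sqrt M)⁻¹ : ℝ) : ℂ) * inner ℂ (u i) (u i')) := by
    intro i i'
    rw [hinner]
    show _ * inner ℂ (u i) ((((Real.sqrt M)⁻¹ : ℝ) : ℂ) • u i') = _
    rw [inner_smul_right]
  have hv : Orthonormal ℂ v := by
    rw [orthonormal_iff_ite]
    intro i i'
    rw [hinner']
    split_ifs with h
    · rw [← h, h1]
      norm_cast
      field_simp
      rw [sq, hss]
    · rw [h2 i i' h, mul_zero, mul_zero]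
  have h3 := Orthonormal.sum_inner_products_le (𝕜 := ℂ) G (s := Finset.univ) hv
  have h4 : ∑ i, ‖inner ℂ (u i) G‖ ^ 2 = M * ∑ i, ‖inner ℂ (v i) G‖ ^ 2 := by
    rw [Finset.mul_sum]
    refine Finset.sum_congr rfl fun i _ => ?_
    rw [hinner, norm_mul, Complex.norm_real, Real.norm_eq_abs, abs_of_pos (inv_pos.2 hs),
      mul_pow, inv_pow, sq (Real.sqrt M), hss, ← mul_assoc, mul_inv_cancel₀ hM.ne', one_mul]
  rw [h4]
  exact mul_le_mul_of_nonneg_left h3 hM.le

theorem pf_BES : T_BES := by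
  classical
  intro I J Ψ T ρ ν P G hP hρ hG hort
  rcases T.eq_empty_or_nonempty with rfl | hT
  · simp
  set μ : Measure ℝ := volume.restrict (Ioc 0 P) with hμ
  have hfin : IsFiniteMeasure μ := by
    rw [hμ]
    infer_instance
  have hint : ∀ f : ℝ → ℂ, ∫ τ, f τ ∂μ = ∫ τ in (0 : ℝ)..P, f τ := fun f => by
    rw [intervalIntegral.integral_of_le hP.le]
  have hint' : ∀ f : ℝ → ℝ, ∫ τ, f τ ∂μ = ∫ τ in (0 : ℝ)..P, f τ := fun f => by
    rw [intervalIntegral.integral_of_le hP.le]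
  -- the families
  have hGm : ∀ j : T, MemLp (G j) 2 μ := by
    intro j
    obtain ⟨h1, C, h2⟩ := hG j j.2
    have h3 : AEStronglyMeasurable (G j) μ :=
      h1.mono_measure (Measure.restrict_mono Ioc_subset_Icc_self le_rfl)
    refine MemLp.of_bound h3 C ?_
    rw [hμ, ae_restrict_iff' measurableSet_Ioc]
    exact Eventually.of_forall fun τ hτ => h2 τ (Ioc_subset_Icc_self hτ)
  let e : I → ℝ → ℂ := fun i τ => Complex.exp (((ν i * τ : ℝ) : ℂ) * Complex.I)
  have hec : ∀ i, Continuous (e i) := by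
    intro i
    show Continuous fun τ : ℝ => Complex.exp (((ν i * τ : ℝ) : ℂ) * Complex.I)
    fun_prop
  have hen : ∀ i τ, ‖e i τ‖ = 1 := fun i τ => Complex.norm_exp_ofReal_mul_I _
  have hconj : ∀ i τ, conj (e i τ) = Complex.exp (-(((ν i * τ : ℝ) : ℂ) * Complex.I)) := by
    intro i τ
    show conj (Complex.exp (((ν i * τ : ℝ) : ℂ) * Complex.I)) = _
    rw [← Complex.exp_conj, map_mul, Complex.conj_ofReal, Complex.conj_I, mul_neg]
  let f : I → T → ℝ → ℂ := fun i j τ => conj (ρ i j) * e i τ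
  have hfm : ∀ i, ∀ j : T, MemLp (f i j) 2 μ := by
    intro i j
    refine MemLp.of_bound ((continuous_const.mul (hec i)).aestronglyMeasurable)
      ‖conj (ρ i j)‖ (Eventually.of_forall fun τ => ?_)
    rw [norm_mul, hen, mul_one]
  -- the scalar products
  have e1 : ∀ i, inner ℂ (mk (f i) (hfm i)) (mk (fun j : T => G j) hGm) =
      ∑ j ∈ T, ρ i j * ∫ τ in (0 : ℝ)..P, G j τ *
        Complex.exp (-(((ν i * τ : ℝ) : ℂ) * Complex.I)) := by
    intro i
    rw [inner_mk, ← Finset.sum_coe_sort T (fun j => ρ i j * ∫ τ in (0 : ℝ)..P, G j τ *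
        Complex.exp (-(((ν i * τ : ℝ) : ℂ) * Complex.I)))]
    refine Finset.sum_congr rfl fun j _ => ?_
    rw [hint, ← intervalIntegral.integral_const_mul]
    refine intervalIntegral.integral_congr fun τ _ => ?_
    show G j τ * conj (conj (ρ i j) * e i τ) = ρ i j * (G j τ * _)
    rw [map_mul, Complex.conj_conj, hconj]
    ring
  have e2 : ∀ i i', inner ℂ (mk (f i) (hfm i)) (mk (f i') (hfm i')) =
      (∑ j ∈ T, ρ i j * (starRingEnd ℂ) (ρ i' j)) *
        ∫ τ in (0 : ℝ)..P, Complex.exp (-((((ν i - ν i') * τ : ℝ) : ℂ) * Complex.I)) := by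
    intro i i'
    rw [inner_mk, Finset.sum_mul, ← Finset.sum_coe_sort T (fun j =>
      ρ i j * (starRingEnd ℂ) (ρ i' j) *
        ∫ τ in (0 : ℝ)..P, Complex.exp (-((((ν i - ν i') * τ : ℝ) : ℂ) * Complex.I)))]
    refine Finset.sum_congr rfl fun j _ => ?_
    rw [hint, ← intervalIntegral.integral_const_mul]
    refine intervalIntegral.integral_congr fun τ _ => ?_
    show conj (ρ i' j) * e i' τ * conj (conj (ρ i j) * e i τ) =
      ρ i j * conj (ρ i' j) * Complex.exp (-((((ν i - ν i') * τ : ℝ) : ℂ) * Complex.I))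
    rw [map_mul, Complex.conj_conj, hconj]
    have h5 : Complex.exp (-((((ν i - ν i') * τ : ℝ) : ℂ) * Complex.I)) =
        e i' τ * Complex.exp (-(((ν i * τ : ℝ) : ℂ) * Complex.I)) := by
      show _ = Complex.exp (((ν i' * τ : ℝ) : ℂ) * Complex.I) * _
      rw [← Complex.exp_add]
      congr 1
      push_cast
      ring
    rw [h5]
    ring
  have e3 : ∀ i ∈ Ψ, inner ℂ (mk (f i) (hfm i)) (mk (f i) (hfm i)) =
      ((T.card * P : ℝ) : ℂ) := by
    intro i hi
    rw [e2]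
    have h5 : ∑ j ∈ T, ρ i j * (starRingEnd ℂ) (ρ i j) = (T.card : ℂ) := by
      have h6 : ∀ j ∈ T, ρ i j * (starRingEnd ℂ) (ρ i j) = 1 := by
        intro j hj
        rw [Complex.mul_conj, Complex.normSq_eq_norm_sq, hρ i hi j hj]
        norm_num
      rw [Finset.sum_congr rfl h6, Finset.sum_const, nsmul_eq_mul, mul_one]
    rw [h5]
    have h7 : ∫ τ in (0 : ℝ)..P, Complex.exp (-((((ν i - ν i) * τ : ℝ) : ℂ) * Complex.I)) =
        (P : ℂ) := by
      have h8 : ∀ τ : ℝ, Complex.exp (-((((ν i - ν i) * τ : ℝ) : ℂ) * Complex.I)) = 1 := by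
        intro τ
        rw [sub_self, zero_mul, Complex.ofReal_zero, zero_mul, neg_zero, Complex.exp_zero]
      simp only [h8]
      rw [intervalIntegral.integral_const, sub_zero, Complex.real_smul, mul_one]
    rw [h7]
    push_cast
    ring
  have e4 : ‖mk (fun j : T => G j) hGm‖ ^ 2 = ∑ j ∈ T, ∫ τ in (0 : ℝ)..P, ‖G j τ‖ ^ 2 := by
    have h5 : ((‖mk (fun j : T => G j) hGm‖ ^ 2 : ℝ) : ℂ) =
        ((∑ j ∈ T, ∫ τ in (0 : ℝ)..P, ‖G j τ‖ ^ 2 : ℝ) : ℂ) := by
      have h6 : inner ℂ (mk (fun j : T => G j) hGm) (mk (fun j : T => G j) hGm) =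
          (‖mk (fun j : T => G j) hGm‖ : ℂ) ^ 2 := inner_self_eq_norm_sq_to_K _
      rw [inner_mk] at h6
      rw [← Finset.sum_coe_sort T (fun j => ∫ τ in (0 : ℝ)..P, ‖G j τ‖ ^ 2), Complex.ofReal_pow,
        ← h6, Complex.ofReal_sum]
      refine Finset.sum_congr rfl fun j _ => ?_
      rw [← hint', ← integral_complex_ofReal]
      refine integral_congr_ae (Eventually.of_forall fun τ => ?_)
      show G j τ * conj (G j τ) = ((‖G j τ‖ ^ 2 : ℝ) : ℂ)
      rw [Complex.mul_conj, Complex.normSq_eq_norm_sq]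
    exact_mod_cast h5
  have hM : 0 < (T.card : ℝ) * P := mul_pos (by exact_mod_cast hT.card_pos) hP
  have hmain := bessel (fun i : Ψ => mk (f i) (hfm i)) (mk (fun j : T => G j) hGm)
    ((T.card : ℝ) * P) hM (fun i => e3 i i.2) (fun i i' hii => by
      rw [e2]
      exact hort i i.2 i' i'.2 fun h => hii (Subtype.ext h))
  rw [e4] at hmain
  rw [← Finset.sum_coe_sort Ψ (fun i => ‖∑ j ∈ T, ρ i j * ∫ τ in (0 : ℝ)..P, G j τ *
      Complex.exp (-(((ν i * τ : ℝ) : ℂ) * Complex.I))‖ ^ 2)]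
  refine le_trans (le_of_eq ?_) hmain
  refine Finset.sum_congr rfl fun i _ => ?_
  rw [e1]

end Pool.Agent.H39.DF
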